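import Pool.Agent.H.MP_12d91b_an.D

set_option autoImplicit false

namespace Pool.Agent.Results.MP_12d91b_an.Yes

/-- `φ` is a C¹ diffeomorphism of the circle ℝ/ℤ (either orientation): it lifts to a
C¹ diffeomorphism of the line. -/
def IsC1Diffeo (φ : Equiv.Perm UnitAddCircle) : Prop :=
  ∃ F : ℝ ≃ ℝ, ContDiff ℝ 1 F ∧ ContDiff ℝ 1 F.symm ∧ ∀ x : ℝ, φ (x : UnitAddCircle) = (F x : ℝ)

/-- `G` has a resilient pair: `x < f x < f y < g x < g y < y` in the cyclic order, written with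
real representatives `x < a < b < c < d < y < x + 1` of the six points. -/
def HasResilientPair (G : Subgroup (Equiv.Perm UnitAddCircle)) : Prop :=
  ∃ f ∈ G, ∃ g ∈ G, ∃ x a b c d y : ℝ, x < a ∧ a < b ∧ b < c ∧ c < d ∧ d < y ∧ y < x + 1 ∧
    f (x : UnitAddCircle) = (a : ℝ) ∧ f (y : UnitAddCircle) = (b : ℝ) ∧
    g (x : UnitAddCircle) = (c : ℝ) ∧ g (y : UnitAddCircle) = (d : ℝ)

theorem result (S : Set (Equiv.Perm UnitAddCircle)) (hfin : S.Finite) (hsymm : ∀ s ∈ S, s⁻¹ ∈ S)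
    (hC1 : ∀ s ∈ S, IsC1Diffeo s) (hres : ¬ HasResilientPair (Subgroup.closure S))
    (ε : ℝ) (hε : 0 < ε) :
    ∃ h : UnitAddCircle ≃ₜ UnitAddCircle, ∀ s ∈ S, ∀ a b : UnitAddCircle,
      dist (h (s (h.symm a))) (h (s (h.symm b))) ≤ Real.exp ε * dist a b :=
  Pool.Agent.H.MP_12d91b_an.main S hfin hsymm
    (fun s hs => let ⟨F, h1, h2, h3⟩ := hC1 s hs; ⟨F, ⟨h1, h2⟩, h3⟩)
    (fun f hf g hg x a b c d y h1 h2 h3 h4 h5 h6 h7 h8 h9 h10 =>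
      hres ⟨f, hf, g, hg, x, a, b, c, d, y, h1, h2, h3, h4, h5, h6, h7, h8, h9, h10⟩) hε

end Pool.Agent.Results.MP_12d91b_an.Yes
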